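import Mathlib

/-!
In the fundamental groups of the square complexes `Δ_X` the generators `a_i` and `x_j` generate an
anti-torus as soon as `(i,j) ≠ (0,0)`.
-/

namespace Pool.Agent.Results.MP_216313_al.AntiTori

open Polynomial

/-- The defining relators of `G_X`: for `i,j ∈ X` the relator `a_i x_j (x_{i+j} a_{i-j})⁻¹`;
the generator `a_i` is `Sum.inl i`, the generator `x_j` is `Sum.inr j`. -/
def rels (X : Type) [AddCommGroup X] : Set (FreeGroup (X ⊕ X)) :=
  {r | ∃ i j : X, r = FreeGroup.of (Sum.inl i) * FreeGroup.of (Sum.inr j) *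
    (FreeGroup.of (Sum.inr (i + j)) * FreeGroup.of (Sum.inl (i - j)))⁻¹}

/-- The group `G_X = ⟨ a_i, x_j (i,j ∈ X) | a_i x_j = x_{i+j} a_{i-j} (i,j ∈ X) ⟩`. -/
abbrev G (X : Type) [AddCommGroup X] : Type := PresentedGroup (rels X)

/-- The generator `a_i` of `G_X`. -/
def a {X : Type} [AddCommGroup X] (i : X) : G X := PresentedGroup.of (Sum.inl i)

/-- The generator `x_j` of `G_X`. -/
def x {X : Type} [AddCommGroup X] (j : X) : G X := PresentedGroup.of (Sum.inr j)

/-- Two elements `g,h` of a group generate an anti-torus if `g^p h^q ≠ h^q g^p` for all non-zero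
integers `p,q`. -/
def AntiTorus {Γ : Type} [Group Γ] (g h : Γ) : Prop :=
  ∀ p q : ℤ, p ≠ 0 → q ≠ 0 → g ^ p * h ^ q ≠ h ^ q * g ^ p

/-! ### Affine representations -/

section affine

variable {R : Type} [CommRing R]

/-- The dilation with centre `f`. -/
def dil (f : R) : Rˣ →* Equiv.Perm R where
  toFun u :=
    { toFun := fun y => u * (y - f) + f
      invFun := fun y => (u⁻¹ : Rˣ) * (y - f) + f
      left_inv := fun y => by
        have : ((u⁻¹ : Rˣ) : R) * u = 1 := Units.inv_mul u
        linear_combination (y - f) * this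
      right_inv := fun y => by
        have : ((u⁻¹ : Rˣ) : R) * u = 1 := Units.inv_mul u
        linear_combination (y - f) * this }
  map_one' := by
    ext y
    change ((1 : Rˣ) : R) * (y - f) + f = y
    rw [Units.val_one]
    ring
  map_mul' u v := by
    ext y
    change ((u * v : Rˣ) : R) * (y - f) + f = u * ((v * (y - f) + f) - f) + f
    rw [Units.val_mul]
    ring

theorem dil_apply (f : R) (u : Rˣ) (y : R) : dil f u y = u * (y - f) + f := rfl

theorem dil_comm {f m : R} {u v : Rˣ} (h : dil f u * dil m v = dil m v * dil f u) :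
    (1 - (u : R)) * (1 - v) * (f - m) = 0 := by
  have := congrArg (fun e : Equiv.Perm R => e m) h
  simp only [Equiv.Perm.mul_apply, dil_apply] at this
  linear_combination this

variable {X : Type} [AddCommGroup X]

/-- The images of the generators. -/
def img (m : X →+ R) (w u v : Rˣ) : X ⊕ X → Equiv.Perm R
  | Sum.inl i => dil (m i * (w⁻¹ : Rˣ)) u
  | Sum.inr j => dil (m j) v

theorem img_rels (m : X →+ R) (w u v : Rˣ) (hw : (w : R) = 1 - u)
    (huv : (1 - (u : R)) * (1 - v) = v) :
    ∀ r ∈ rels X, FreeGroup.lift (img m w u v) r = 1 := by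
  rintro r ⟨i, j, rfl⟩
  rw [map_mul, map_inv, mul_inv_eq_one, map_mul, map_mul]
  simp only [FreeGroup.lift_apply_of]
  ext y
  simp only [img, Equiv.Perm.mul_apply, dil_apply, map_add, map_sub]
  have h1 : (w : R) * ((w⁻¹ : Rˣ) : R) = 1 := Units.mul_inv w
  rw [hw] at h1
  linear_combination (m i - v * (m i - m j)) * h1 - m j * huv

/-- The affine representation. -/
noncomputable def rep (m : X →+ R) (w u v : Rˣ) (hw : (w : R) = 1 - u)
    (huv : (1 - (u : R)) * (1 - v) = v) : G X →* Equiv.Perm R :=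
  PresentedGroup.toGroup (img_rels m w u v hw huv)

theorem rep_a (m : X →+ R) (w u v : Rˣ) (hw : (w : R) = 1 - u)
    (huv : (1 - (u : R)) * (1 - v) = v) (i : X) (p : ℤ) :
    rep m w u v hw huv (a i ^ p) = dil (m i * (w⁻¹ : Rˣ)) (u ^ p) := by
  rw [map_zpow, map_zpow]
  exact congrArg (· ^ p) (PresentedGroup.toGroup.of (img_rels m w u v hw huv))

theorem rep_x (m : X →+ R) (w u v : Rˣ) (hw : (w : R) = 1 - u)
    (huv : (1 - (u : R)) * (1 - v) = v) (j : X) (q : ℤ) :
    rep m w u v hw huv (x j ^ q) = dil (m j) (v ^ q) := by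
  rw [map_zpow, map_zpow]
  exact congrArg (· ^ q) (PresentedGroup.toGroup.of (img_rels m w u v hw huv))

theorem alg1 {z zi : R} (hzi : z * zi = 1) {n : ℕ} {V : R} (h : (1 - zi ^ n) * V = 0) :
    (1 - z ^ n) * V = 0 := by
  have hzn : z ^ n * zi ^ n = 1 := by rw [← mul_pow, hzi, one_pow]
  linear_combination (-z ^ n) * h - V * hzn

theorem alg2 {z zi u1 u2 ui w wi v s t : R} {n : ℕ} (hzi : z * zi = 1) (hui : u2 * ui = 1)
    (hv : v = u1 * ui) (hw : w = 1 - zi) (hwi : w * wi = 1)
    (h : (1 - v ^ n) * (s * wi - t) = 0) :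
    (u2 ^ n - u1 ^ n) * (t + (s - t) * z) = 0 := by
  have hvn : u2 ^ n * v ^ n = u1 ^ n := by
    rw [← mul_pow, hv]
    congr 1
    linear_combination u1 * hui
  have hwz : w * z = z - 1 := by
    rw [hw]
    linear_combination (-1 : R) * hzi
  have hsc : (s * wi - t) * (w * z) = t + (s - t) * z := by
    linear_combination (s * z) * hwi - t * hwz
  rw [← hsc, ← hvn]
  linear_combination (u2 ^ n * (w * z)) * h

theorem abs_pow {u : Rˣ} {q : ℤ} {v : R} (h : (1 - ((u ^ q : Rˣ) : R)) * v = 0) :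
    (1 - (u : R) ^ q.natAbs) * v = 0 := by
  rcases Int.natAbs_eq q with hq | hq
  · rw [hq, zpow_natCast, Units.val_pow_eq_pow_val] at h
    exact h
  · have h1 : (u : R) ^ q.natAbs * ((u ^ q : Rˣ) : R) = 1 := by
      rw [← Units.val_pow_eq_pow_val, ← Units.val_mul, ← zpow_natCast, ← zpow_add]
      have : ((q.natAbs : ℤ) + q) = 0 := by omega
      rw [this, zpow_zero, Units.val_one]
    linear_combination (-(u : R) ^ q.natAbs) * h - v * h1

end affine

/-! ### Laurent series -/

section laurent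

variable (A : Type) [CommRing A]

/-- The inclusion of polynomials in Laurent series. -/
noncomputable def iota : A[X] →+* HahnSeries ℤ A :=
  (HahnSeries.ofPowerSeries ℤ A).comp Polynomial.coeToPowerSeries.ringHom

variable {A}

theorem iota_injective : Function.Injective (iota A) :=
  HahnSeries.ofPowerSeries_injective.comp (Polynomial.coe_injective A)

theorem iota_unit {P : A[X]} (h : P.coeff 0 = 1) : IsUnit (iota A P) := by
  have h1 : IsUnit (P : PowerSeries A) := by
    rw [PowerSeries.isUnit_iff_constantCoeff]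
    have : PowerSeries.constantCoeff (P : PowerSeries A) = 1 := by
      rw [← PowerSeries.coeff_zero_eq_constantCoeff_apply, Polynomial.coeff_coe, h]
    rw [this]
    exact isUnit_one
  exact h1.map (HahnSeries.ofPowerSeries ℤ A)

theorem iota_X_unit : IsUnit (iota A X) := by
  have h1 : iota A X = HahnSeries.single 1 1 := by
    change HahnSeries.ofPowerSeries ℤ A (Polynomial.coeToPowerSeries.ringHom X) = _
    rw [Polynomial.coeToPowerSeries.ringHom_apply, Polynomial.coe_X,
      HahnSeries.ofPowerSeries_X]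
  rw [h1]
  refine IsUnit.of_mul_eq_one (HahnSeries.single (-1) 1) ?_
  rw [HahnSeries.single_mul_single]
  simp

theorem iota_C (r : A) : iota A (C r) = HahnSeries.C r := by
  change HahnSeries.ofPowerSeries ℤ A (Polynomial.coeToPowerSeries.ringHom (C r)) = _
  rw [Polynomial.coeToPowerSeries.ringHom_apply, Polynomial.coe_C, HahnSeries.ofPowerSeries_C]

end laurent

theorem key {A : Type} [CommRing A] {n : ℕ} {s t : A}
    (h : iota A (((1 - 2 * X) ^ n - (1 - X) ^ n) * (C t + C (s - t) * X)) = 0) (hn : n ≠ 0) :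
    s = 0 ∧ t = 0 := by
  have h1 : ((1 - 2 * X) ^ n - (1 - X) ^ n) * (C t + C (s - t) * X) = 0 := by
    apply iota_injective
    rw [h, map_zero]
  have hev : (((1 - 2 * X) ^ n - (1 - X) ^ n : A[X])).eval 1 = (-1) ^ n := by
    simp only [eval_sub, eval_pow, eval_mul, eval_one, eval_X, eval_ofNat]
    rw [sub_self, zero_pow hn]
    norm_num
  have hunit : ∀ r : A, (-1) ^ n * r = 0 → r = 0 := by
    intro r hr
    have : (-1 : A) ^ n * ((-1) ^ n * r) = 0 := by rw [hr, mul_zero]
    rwa [← mul_assoc, ← mul_pow, neg_one_mul, neg_neg, one_pow, one_mul] at this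
  have hs : s = 0 := by
    have h2 := congrArg (Polynomial.eval 1) h1
    rw [eval_mul, hev, eval_zero] at h2
    simp only [eval_add, eval_C, eval_mul, eval_X, mul_one] at h2
    have := hunit _ h2
    linear_combination this
  refine ⟨hs, ?_⟩
  subst hs
  have h3 : iota A (1 - X) * iota A (((1 - 2 * X) ^ n - (1 - X) ^ n) * C t) = 0 := by
    rw [← map_mul, ← h]
    congr 1
    rw [zero_sub, C_neg]
    ring
  have h4 : iota A (((1 - 2 * X) ^ n - (1 - X) ^ n) * C t) = 0 :=
    (iota_unit (A := A) (P := 1 - X) (by simp)).mul_right_eq_zero.mp h3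
  have h5 : ((1 - 2 * X) ^ n - (1 - X) ^ n) * C t = 0 := by
    apply iota_injective
    rw [h4, map_zero]
  have h6 := congrArg (Polynomial.eval 1) h5
  rw [eval_mul, hev, eval_zero, eval_C] at h6
  exact hunit _ h6

theorem chi_zero {A : Type} [CommRing A] {X : Type} [AddCommGroup X] (chi : X →+ A) (i j : X)
    {p q : ℤ} (hp : p ≠ 0) (hq : q ≠ 0) (hcomm : a i ^ p * x j ^ q = x j ^ q * a i ^ p) :
    chi i = 0 ∧ chi j = 0 := by
  let z : (HahnSeries ℤ A)ˣ := (iota_X_unit (A := A)).unit
  let u1 : (HahnSeries ℤ A)ˣ :=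
    (iota_unit (A := A) (P := 1 - Polynomial.X) (by simp)).unit
  let u2 : (HahnSeries ℤ A)ˣ :=
    (iota_unit (A := A) (P := 1 - 2 * Polynomial.X) (by simp)).unit
  have hz : (z : HahnSeries ℤ A) = iota A Polynomial.X := rfl
  have hu1 : (u1 : HahnSeries ℤ A) = 1 - z := by
    change iota A (1 - Polynomial.X) = 1 - iota A Polynomial.X
    rw [map_sub, map_one]
  have hu2 : (u2 : HahnSeries ℤ A) = 1 - 2 * z := by
    change iota A (1 - 2 * Polynomial.X) = 1 - 2 * iota A Polynomial.X
    rw [map_sub, map_one, map_mul, map_ofNat]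
  have hzi : (z : HahnSeries ℤ A) * ((z⁻¹ : (HahnSeries ℤ A)ˣ) : HahnSeries ℤ A) = 1 :=
    Units.mul_inv z
  have hu2i : (u2 : HahnSeries ℤ A) * ((u2⁻¹ : (HahnSeries ℤ A)ˣ) : HahnSeries ℤ A) = 1 :=
    Units.mul_inv u2
  let w : (HahnSeries ℤ A)ˣ := -(u1 * z⁻¹)
  have hw : (w : HahnSeries ℤ A) = 1 - ((z⁻¹ : (HahnSeries ℤ A)ˣ) : HahnSeries ℤ A) := by
    change -((u1 : HahnSeries ℤ A) * ((z⁻¹ : (HahnSeries ℤ A)ˣ) : HahnSeries ℤ A)) = _
    rw [hu1]
    linear_combination hzi
  let v : (HahnSeries ℤ A)ˣ := u1 * u2⁻¹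
  have hv : (v : HahnSeries ℤ A) = u1 * ((u2⁻¹ : (HahnSeries ℤ A)ˣ) : HahnSeries ℤ A) := rfl
  have huv : (1 - ((z⁻¹ : (HahnSeries ℤ A)ˣ) : HahnSeries ℤ A)) * (1 - v) = v := by
    rw [hv, hu1]
    rw [hu2] at hu2i
    generalize ((z⁻¹ : (HahnSeries ℤ A)ˣ) : HahnSeries ℤ A) = zi at *
    generalize ((u2⁻¹ : (HahnSeries ℤ A)ˣ) : HahnSeries ℤ A) = ui at *
    generalize (z : HahnSeries ℤ A) = z at *
    linear_combination ui * hzi + (zi - 1) * hu2i
  let m : X →+ HahnSeries ℤ A :=
    (HahnSeries.C : A →+* HahnSeries ℤ A).toAddMonoidHom.comp chi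
  have h1 := congrArg (rep m w z⁻¹ v hw huv) hcomm
  rw [map_mul, map_mul, rep_a, rep_x] at h1
  have h2 := dil_comm h1
  have hmi : m i = iota A (C (chi i)) := (iota_C _).symm
  have hmj : m j = iota A (C (chi j)) := (iota_C _).symm
  have hwi : (w : HahnSeries ℤ A) * ((w⁻¹ : (HahnSeries ℤ A)ˣ) : HahnSeries ℤ A) = 1 :=
    Units.mul_inv w
  rw [mul_assoc] at h2
  -- remove the factor coming from `a^p`
  have hn : p.natAbs ≠ 0 := by omega
  have hun : IsUnit ((1 : HahnSeries ℤ A) - (z : HahnSeries ℤ A) ^ p.natAbs) := by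
    have := iota_unit (A := A) (P := 1 - Polynomial.X ^ p.natAbs)
      (by rw [coeff_sub, coeff_one_zero, coeff_X_pow, if_neg (Ne.symm hn), sub_zero])
    rwa [map_sub, map_one, map_pow] at this
  have h5 := hun.mul_right_eq_zero.mp (alg1 hzi (abs_pow h2))
  have h7 := alg2 hzi hu2i hv hw hwi (abs_pow h5)
  have hn' : q.natAbs ≠ 0 := by omega
  refine key (n := q.natAbs) ?_ hn'
  rw [map_mul, map_sub, map_pow, map_pow, map_sub, map_sub, map_one, map_add, map_mul, map_mul,
    map_ofNat, ← hz, ← hu1, ← hu2, C_sub, map_sub, ← hmi, ← hmj]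
  exact h7

/-- For every abelian group `X` (in particular for every finite abelian group of order greater
than two) and all `i,j ∈ X`, not both zero, the elements `a_i` and `x_j` of `G_X` generate an
anti-torus. -/
theorem result (X : Type) [AddCommGroup X] (i j : X) (hij : ¬ (i = 0 ∧ j = 0)) :
    AntiTorus (a i) (x j) := by
  intro p q hp hq hcomm
  apply hij
  -- coefficients in the square-zero extension of `ℤ` by `X`
  letI : Module ℤᵐᵒᵖ X :=
    Module.compHom X ((RingHom.id ℤ).fromOpposite fun x y => mul_comm x y)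
  haveI : IsCentralScalar ℤ X := ⟨fun _ _ => rfl⟩
  have := chi_zero (A := TrivSqZeroExt ℤ X) (TrivSqZeroExt.inrHom ℤ X).toAddMonoidHom i j
    hp hq hcomm
  exact ⟨TrivSqZeroExt.inr_injective (this.1.trans (TrivSqZeroExt.inr_zero _).symm),
    TrivSqZeroExt.inr_injective (this.2.trans (TrivSqZeroExt.inr_zero _).symm)⟩

end Pool.Agent.Results.MP_216313_al.AntiTori
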